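import Mathlib

/-!
# Algebraic entropy of amenable group actions restricted to subgroups

A finite subset `F` of `G` is the disjoint union of pieces `t E_t` in the left cosets `t H`. The
trajectory of `F` has at most as many elements as the product of the trajectories of the `E_t`, and
if `F` is almost invariant under right multiplication with the elements of a finite subset of `H`,
then so are most of the `E_t`.
-/

namespace Pool.Agent.Results.MP_df8e9b_al.EntropySubgroups

open scoped Pointwise Classical
open Filter Topology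

noncomputable section

variable (G : Type) [Group G] (A : Type) [AddCommGroup A] [DistribMulAction G A]

variable {G A} in
/-- The trajectory `T_F(X) = ∑ g ∈ F, g • X` (sum of sets). -/
def traj (X : Finset A) (F : Finset G) : Finset A := ∑ g ∈ F, g • X

variable {G} in
/-- The number `|F g ∆ F|` of elements of the symmetric difference of `F g` and `F`. -/
def defect (g : G) (F : Finset G) : ℕ := (symmDiff (F.image (· * g)) F).card

variable {G} in
/-- The set `F` is nonempty and `(K, ε)`-invariant on the right: `|F g ∆ F| ≤ ε |F|` for all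
`g ∈ K`. -/
def RightInv (K : Finset G) (ε : ℝ) (F : Finset G) : Prop :=
  F.Nonempty ∧ ∀ g ∈ K, (defect g F : ℝ) ≤ ε * F.card

/-- The group is amenable: there are right `(K, ε)`-invariant finite sets for all finite sets `K`
and all `ε > 0`. -/
def Amenable : Prop := ∀ (K : Finset G) (ε : ℝ), 0 < ε → ∃ F, RightInv K ε F

variable {G} in
/-- The net `F` of nonempty finite sets is a right Følner net. -/
def IsFolnerNet {ι : Type} [Preorder ι] (F : ι → Finset G) : Prop :=
  (∀ i, (F i).Nonempty) ∧ ∀ g : G,
    Tendsto (fun i => (defect g (F i) : ℝ) / (F i).card) atTop (𝓝 0)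

/-- The filter of the right Følner sets: the sets of this filter contain all right
`(K, ε)`-invariant sets for some finite `K` and some `ε > 0`. -/
def folner : Filter (Finset G) where
  sets := {s | ∃ (K : Finset G) (ε : ℝ), 0 < ε ∧ ∀ F, RightInv K ε F → F ∈ s}
  univ_sets := ⟨∅, 1, one_pos, fun _ _ => Set.mem_univ _⟩
  sets_of_superset := by
    rintro s t ⟨K, ε, hε, h⟩ hst
    exact ⟨K, ε, hε, fun F hF => hst (h F hF)⟩
  inter_sets := by
    rintro s t ⟨K, ε, hε, h⟩ ⟨K', ε', hε', h'⟩
    refine ⟨K ∪ K', min ε ε', lt_min hε hε', fun F hF => ⟨h F ?_, h' F ?_⟩⟩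
    · refine ⟨hF.1, fun g hg => (hF.2 g (Finset.mem_union_left _ hg)).trans ?_⟩
      exact mul_le_mul_of_nonneg_right (min_le_left _ _) (Nat.cast_nonneg _)
    · refine ⟨hF.1, fun g hg => (hF.2 g (Finset.mem_union_right _ hg)).trans ?_⟩
      exact mul_le_mul_of_nonneg_right (min_le_right _ _) (Nat.cast_nonneg _)

variable {A} in
/-- The quotient `log |T_F(X)| / |F|`. -/
def rate (X : Finset A) (F : Finset G) : EReal := ((Real.log (traj X F).card / F.card : ℝ) : EReal)

variable {A} in
/-- The number `H_alg(α, X)`: the upper limit of `log |T_F(X)| / |F|` along the right Følner sets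
`F`. It is the limit along every right Følner net (see `halg_eq_of_forall_net`). -/
def Halg (X : Finset A) : EReal := limsup (rate G X) (folner G)

/-- The algebraic entropy `h_alg`: the supremum over the nonempty finite subsets. -/
def halg : EReal := ⨆ X : {X : Finset A // X.Nonempty}, Halg G X.1

/-- The entropy `ent`: the supremum over the finite subgroups. -/
def ent : EReal := ⨆ X : {X : Finset A // ∃ B : AddSubgroup A, (X : Set A) = B}, Halg G X.1

variable {G A}

theorem folner_neBot (hG : Amenable G) : (folner G).NeBot := by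
  rw [Filter.neBot_iff]
  intro h
  have h1 : (∅ : Set (Finset G)) ∈ folner G := by rw [h]; exact mem_bot
  obtain ⟨K, ε, hε, h2⟩ := h1
  obtain ⟨F, hF⟩ := hG K ε hε
  exact h2 F hF

/-- Indices of a universal right Følner net. -/
structure Idx (G : Type) [Group G] where
  /-- a finite set -/
  K : Finset G
  /-- a number -/
  ε : ℝ
  /-- a finite set -/
  F : Finset G
  pos : 0 < ε
  inv : RightInv K ε F

instance : Preorder (Idx G) where
  le p q := p.K ⊆ q.K ∧ q.ε ≤ p.ε
  le_refl _ := ⟨le_rfl, le_rfl⟩
  le_trans _ _ _ h1 h2 := ⟨h1.1.trans h2.1, h2.2.trans h1.2⟩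

/-- If the limit of `log |T_F(X)| / |F|` exists and has the same value for all right Følner nets,
then this value is `Halg G X`. -/
theorem halg_eq_of_forall_net (hG : Amenable G) (X : Finset A) (L : EReal)
    (h : ∀ (ι : Type) [Preorder ι] [IsDirectedOrder ι] [Nonempty ι] (F : ι → Finset G),
      IsFolnerNet F → Tendsto (fun i => rate G X (F i)) atTop (𝓝 L)) : Halg G X = L := by
  have hne := folner_neBot hG
  have hdir : IsDirectedOrder (Idx G) := by
    constructor
    intro p q
    obtain ⟨F, hF⟩ := hG (p.K ∪ q.K) (min p.ε q.ε) (lt_min p.pos q.pos)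
    exact ⟨⟨p.K ∪ q.K, min p.ε q.ε, F, lt_min p.pos q.pos, hF⟩,
      ⟨Finset.subset_union_left, min_le_left _ _⟩, ⟨Finset.subset_union_right, min_le_right _ _⟩⟩
  have hnon : Nonempty (Idx G) := by
    obtain ⟨F, hF⟩ := hG ∅ 1 one_pos
    exact ⟨⟨∅, 1, F, one_pos, hF⟩⟩
  have hnet : IsFolnerNet (fun p : Idx G => p.F) := by
    refine ⟨fun p => p.inv.1, fun g => ?_⟩
    rw [Metric.tendsto_nhds]
    intro ε hε
    obtain ⟨F, hF⟩ := hG {g} (ε / 2) (half_pos hε)
    rw [eventually_atTop]
    refine ⟨⟨{g}, ε / 2, F, half_pos hε, hF⟩, fun p hp => ?_⟩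
    have h1 : g ∈ p.K := hp.1 (Finset.mem_singleton_self g)
    have h2 := p.inv.2 g h1
    have h3 : (0 : ℝ) < p.F.card := by exact_mod_cast p.inv.1.card_pos
    have h4 : p.ε ≤ ε / 2 := hp.2
    rw [Real.dist_eq, sub_zero, abs_of_nonneg (by positivity), div_lt_iff₀ h3]
    calc _ ≤ _ := h2
      _ ≤ ε / 2 * p.F.card := mul_le_mul_of_nonneg_right h4 h3.le
      _ < ε * p.F.card := mul_lt_mul_of_pos_right (by linarith) h3
  have hlim := h (Idx G) _ hnet
  have hlim2 : Tendsto (rate G X) (folner G) (𝓝 L) := by
    intro U hU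
    have h1 := hlim hU
    rw [mem_map, mem_atTop_sets] at h1
    obtain ⟨p, hp⟩ := h1
    refine ⟨p.K, p.ε, p.pos, fun F hF => ?_⟩
    exact hp ⟨p.K, p.ε, F, p.pos, hF⟩ ⟨le_rfl, le_rfl⟩
  exact hlim2.limsup_eq

/-! ### The proof -/

theorem mem_defect {g x : G} {F : Finset G} : x ∈ symmDiff (F.image (· * g)) F ↔
    ((∃ b ∈ F, b * g = x) ∧ x ∉ F) ∨ (x ∈ F ∧ ¬ ∃ b ∈ F, b * g = x) := by
  rw [Finset.mem_symmDiff, Finset.mem_image]

theorem traj_nonempty {X : Finset A} (hX : X.Nonempty) (F : Finset G) : (traj X F).Nonempty := by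
  unfold traj
  induction F using Finset.induction_on with
  | empty => rw [Finset.sum_empty]; exact Finset.zero_nonempty
  | insert a s ha ih =>
    rw [Finset.sum_insert ha]
    exact hX.smul_finset.add ih

theorem log_sum_le {ι : Type} (s : Finset ι) (S : ι → Finset A) (h : ∀ i ∈ s, (S i).Nonempty) :
    Real.log (∑ i ∈ s, S i).card ≤ ∑ i ∈ s, Real.log (S i).card := by
  apply Finset.le_sum_of_subadditive_on_pred (fun T : Finset A => Real.log T.card)
    (fun T => T.Nonempty) (by simp)
  · intro x y hx hy
    have h1 : (0 : ℝ) < (x + y).card := by exact_mod_cast (hx.add hy).card_pos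
    have h2 : (0 : ℝ) < x.card := by exact_mod_cast hx.card_pos
    have h3 : (0 : ℝ) < y.card := by exact_mod_cast hy.card_pos
    rw [← Real.log_mul h2.ne' h3.ne']
    apply Real.log_le_log h1
    exact_mod_cast Finset.card_add_le
  · intro x y hx hy
    exact hx.add hy
  · exact h

theorem log_traj_le {X : Finset A} (hX : X.Nonempty) (F : Finset G) :
    Real.log (traj X F).card ≤ F.card * Real.log X.card := by
  unfold traj
  refine (log_sum_le F _ (fun g _ => hX.smul_finset)).trans ?_
  simp [Finset.card_smul_finset]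

section Cosets

variable (H : Subgroup G)

/-- The part of `F` in the coset `q`, moved to `H`. -/
def part (F : Finset G) (q : G ⧸ H) : Finset H :=
  F.preimage (fun h : H => q.out * (h : G)) (fun a _ b _ hab => by
    simpa using hab)

variable {H}

theorem mem_part {F : Finset G} {q : G ⧸ H} {h : H} : h ∈ part H F q ↔ q.out * (h : G) ∈ F := by
  unfold part
  exact Finset.mem_preimage

theorem filter_eq (F : Finset G) (q : G ⧸ H) :
    F.filter (fun g : G => (QuotientGroup.mk g : G ⧸ H) = q) = (part H F q).image (fun h : H => q.out * (h : G)) := by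
  ext g
  rw [Finset.mem_filter, Finset.mem_image]
  constructor
  · rintro ⟨hg, hq⟩
    have h1 : q.out⁻¹ * g ∈ H := by
      rw [← QuotientGroup.eq, QuotientGroup.out_eq', hq]
    refine ⟨⟨q.out⁻¹ * g, h1⟩, ?_, by simp⟩
    rw [mem_part]
    simpa using hg
  · rintro ⟨h, hh, rfl⟩
    rw [mem_part] at hh
    refine ⟨hh, ?_⟩
    rw [QuotientGroup.mk_mul_of_mem _ h.2, QuotientGroup.out_eq']

theorem inj_out (q : G ⧸ H) : Function.Injective (fun h : H => q.out * (h : G)) := by
  intro a b hab
  simpa using hab

theorem card_eq (F : Finset G) : F.card = ∑ q ∈ F.image (fun g : G => (QuotientGroup.mk g : G ⧸ H)),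
    (part H F q).card := by
  rw [Finset.card_eq_sum_card_image (fun g : G => (QuotientGroup.mk g : G ⧸ H)) F]
  refine Finset.sum_congr rfl fun q _ => ?_
  rw [filter_eq, Finset.card_image_of_injective _ (inj_out q)]

theorem traj_eq (X : Finset A) (F : Finset G) : traj X F =
    ∑ q ∈ F.image (fun g : G => (QuotientGroup.mk g : G ⧸ H)), q.out • traj X (part H F q) := by
  unfold traj
  rw [← Finset.sum_fiberwise_of_maps_to (g := fun g : G => (QuotientGroup.mk g : G ⧸ H))
    (t := F.image (fun g : G => (QuotientGroup.mk g : G ⧸ H))) (fun g hg => Finset.mem_image_of_mem _ hg)]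
  refine Finset.sum_congr rfl fun q _ => ?_
  rw [filter_eq, Finset.sum_image (fun a _ b _ hab => inj_out q hab), Finset.smul_sum]
  refine Finset.sum_congr rfl fun h _ => ?_
  rw [mul_smul]
  rfl

theorem log_traj_le_sum {X : Finset A} (hX : X.Nonempty) (F : Finset G) :
    Real.log (traj X F).card ≤
      ∑ q ∈ F.image (fun g : G => (QuotientGroup.mk g : G ⧸ H)), Real.log (traj X (part H F q)).card := by
  rw [traj_eq (H := H)]
  refine (log_sum_le _ _ (fun q _ => (traj_nonempty hX _).smul_finset)).trans ?_
  refine Finset.sum_le_sum fun q _ => ?_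
  rw [Finset.card_smul_finset]

theorem sum_symmDiff_le (F : Finset G) (k : H) (Q : Finset (G ⧸ H)) :
    ∑ q ∈ Q, defect k (part H F q) ≤ defect (k : G) F := by
  unfold defect
  rw [← Finset.card_sigma]
  refine Finset.card_le_card_of_injOn (fun p => p.1.out * (p.2 : G)) ?_ ?_
  · rintro ⟨q, h⟩ hp
    rw [Finset.mem_coe, Finset.mem_sigma] at hp
    have hp2 := mem_defect.1 hp.2
    rw [Finset.mem_coe, mem_defect]
    have e1 : (∃ a ∈ part H F q, a * k = h) ↔ (∃ b ∈ F, b * (k : G) = q.out * (h : G)) := by
      constructor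
      · rintro ⟨a, ha, rfl⟩
        exact ⟨q.out * (a : G), mem_part.1 ha, by push_cast; group⟩
      · rintro ⟨b, hb, hbk⟩
        have hb' : b = q.out * ((h * k⁻¹ : H) : G) := by
          push_cast
          rw [← mul_assoc, ← hbk]
          group
        refine ⟨h * k⁻¹, mem_part.2 (hb' ▸ hb), by group⟩
    have e2 : h ∈ part H F q ↔ q.out * (h : G) ∈ F := mem_part
    rw [← e1, ← e2]
    exact hp2
  · rintro ⟨q, h⟩ _ ⟨q', h'⟩ _ hqq
    have h1 : q = q' := by
      have h2 : (QuotientGroup.mk (q.out * (h : G)) : G ⧸ H) =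
        QuotientGroup.mk (q'.out * (h' : G)) := congrArg QuotientGroup.mk hqq
      rwa [QuotientGroup.mk_mul_of_mem _ h.2, QuotientGroup.mk_mul_of_mem _ h'.2,
        QuotientGroup.out_eq', QuotientGroup.out_eq'] at h2
    subst h1
    have h3 : (h : G) = h' := mul_left_cancel hqq
    rw [Subtype.ext h3]

end Cosets

set_option maxHeartbeats 1000000 in
/-- The main inequality. -/
theorem Halg_le (H : Subgroup G) {X : Finset A} (hX : X.Nonempty) : Halg G X ≤ Halg H X := by
  -- the key step with real bounds
  have key : ∀ c δ : ℝ, Halg H X < c → 0 < δ → Halg G X ≤ ((c + δ : ℝ) : EReal) := by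
    intro c δ hc hδ
    have h1 := eventually_lt_of_limsup_lt hc
    obtain ⟨K, ε, hε, h2⟩ := h1
    have hlogX : 0 ≤ Real.log X.card := Real.log_natCast_nonneg _
    obtain ⟨B, hB⟩ : ∃ B : ℝ, B = Real.log X.card + |c| + 1 := ⟨_, rfl⟩
    have hBpos : 0 < B := by rw [hB]; positivity
    obtain ⟨ε', hε'⟩ : ∃ ε' : ℝ, ε' = ε * (δ / B) / (K.card + 1) := ⟨_, rfl⟩
    have hε'pos : 0 < ε' := by rw [hε']; positivity
    refine limsup_le_of_le (h := ?_)
    refine ⟨K.image (fun k : H => (k : G)), ε', hε'pos, fun F hF => ?_⟩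
    have hFc : (0 : ℝ) < F.card := by exact_mod_cast hF.1.card_pos
    change rate G X F ≤ ((c + δ : ℝ) : EReal)
    unfold rate
    rw [EReal.coe_le_coe_iff, div_le_iff₀ hFc]
    refine (log_traj_le_sum (H := H) hX F).trans ?_
    set Q := F.image (fun g : G => (QuotientGroup.mk g : G ⧸ H)) with hQ
    -- good and bad cosets
    set D : H → (G ⧸ H) → ℝ := fun k q => (defect k (part H F q) : ℝ) with hD
    have hpart : ∀ q ∈ Q, (part H F q).Nonempty := by
      intro q hq
      obtain ⟨g, hg, rfl⟩ := Finset.mem_image.1 hq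
      have : g ∈ F.filter (fun x : G => (QuotientGroup.mk x : G ⧸ H) = QuotientGroup.mk g) := Finset.mem_filter.2 ⟨hg, rfl⟩
      rw [filter_eq, Finset.mem_image] at this
      obtain ⟨h, hh, _⟩ := this
      exact ⟨h, hh⟩
    have hone : ∀ q ∈ Q, Real.log (traj X (part H F q)).card ≤
        c * (part H F q).card + B * (ε⁻¹ * ∑ k ∈ K, D k q) := by
      intro q hq
      have hpc : (0 : ℝ) < (part H F q).card := by exact_mod_cast (hpart q hq).card_pos
      have hsum : 0 ≤ ∑ k ∈ K, D k q := Finset.sum_nonneg fun k _ => Nat.cast_nonneg _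
      by_cases hg : ∀ k ∈ K, D k q ≤ ε * (part H F q).card
      · have h3 := h2 (part H F q) ⟨hpart q hq, hg⟩
        change rate H X (part H F q) < (c : EReal) at h3
        unfold rate at h3
        rw [EReal.coe_lt_coe_iff, div_lt_iff₀ hpc] at h3
        have : 0 ≤ B * (ε⁻¹ * ∑ k ∈ K, D k q) := by positivity
        linarith
      · push Not at hg
        obtain ⟨k, hk, hkD⟩ := hg
        have h4 : D k q ≤ ∑ k ∈ K, D k q :=
          Finset.single_le_sum (f := fun k => D k q) (fun k _ => Nat.cast_nonneg _) hk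
        have h5 : ((part H F q).card : ℝ) ≤ ε⁻¹ * ∑ k ∈ K, D k q := by
          rw [inv_mul_eq_div, le_div_iff₀ hε, mul_comm]
          linarith
        have h6 := log_traj_le hX (part H F q)
        have h7 : Real.log X.card ≤ c + B := by
          have := neg_abs_le c
          linarith
        calc Real.log (traj X (part H F q)).card ≤ (part H F q).card * Real.log X.card := h6
          _ ≤ (part H F q).card * (c + B) := mul_le_mul_of_nonneg_left h7 hpc.le
          _ = c * (part H F q).card + B * (part H F q).card := by ring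
          _ ≤ _ := by gcongr
    refine (Finset.sum_le_sum hone).trans ?_
    rw [Finset.sum_add_distrib, ← Finset.mul_sum, ← Finset.mul_sum, ← Finset.mul_sum,
      Finset.sum_comm]
    have h8 : ∑ q ∈ Q, ((part H F q).card : ℝ) = F.card := by
      rw [card_eq (H := H) F]
      push_cast
      rfl
    rw [h8]
    have h9 : ∑ k ∈ K, ∑ q ∈ Q, D k q ≤ K.card * (ε' * F.card) := by
      rw [← nsmul_eq_mul]
      refine Finset.sum_le_card_nsmul _ _ _ fun k hk => ?_
      have h10 := sum_symmDiff_le F k Q
      have h11 := hF.2 (k : G) (Finset.mem_image_of_mem _ hk)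
      refine le_trans ?_ h11
      rw [hD]
      dsimp only
      calc (∑ q ∈ Q, (defect k (part H F q) : ℝ)) =
          ((∑ q ∈ Q, defect k (part H F q) : ℕ) : ℝ) := by push_cast; rfl
        _ ≤ (defect (k : G) F : ℝ) := Nat.cast_le.2 h10
    have h12 : B * (ε⁻¹ * ∑ k ∈ K, ∑ q ∈ Q, D k q) ≤ δ * F.card := by
      calc B * (ε⁻¹ * ∑ k ∈ K, ∑ q ∈ Q, D k q) ≤ B * (ε⁻¹ * (K.card * (ε' * F.card))) := by
            gcongr
        _ = (K.card / (K.card + 1)) * (δ * F.card) := by
            rw [hε']
            field_simp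
        _ ≤ 1 * (δ * F.card) := by
            have h13 : (K.card : ℝ) / (K.card + 1) ≤ 1 := by
              rw [div_le_one (by positivity)]
              linarith
            exact mul_le_mul_of_nonneg_right h13 (by positivity)
        _ = δ * F.card := one_mul _
    linarith
  refine le_of_forall_gt_imp_ge_of_dense fun c hc => ?_
  obtain ⟨r, hr1, hr2⟩ := EReal.lt_iff_exists_real_btwn.1 hc
  obtain ⟨s, hs1, hs2⟩ := EReal.lt_iff_exists_real_btwn.1 hr2
  have hrs : r < s := EReal.coe_lt_coe_iff.1 hs1
  have h1 := key r (s - r) hr1 (sub_pos.2 hrs)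
  have h2 : r + (s - r) = s := by ring
  rw [h2] at h1
  exact h1.trans hs2.le

/-- For every amenable group `G` acting on an abelian group `A` by automorphisms and every subgroup
`H` of `G` the algebraic entropies satisfy `h_alg(G, A) ≤ h_alg(H, A)` and
`ent(G, A) ≤ ent(H, A)`, and also `H_alg(G, X) ≤ H_alg(H, X)` for every nonempty finite subset `X`
of `A`. (The last item: `Halg` is the common limit along all right Følner nets, if it exists.) -/
theorem result (G : Type) [Group G] (hG : Amenable G) (A : Type) [AddCommGroup A]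
    [DistribMulAction G A] :
    (∀ H : Subgroup G, halg G A ≤ halg H A ∧ ent G A ≤ ent H A ∧
      ∀ X : Finset A, X.Nonempty → Halg G X ≤ Halg H X) ∧
    (∀ (X : Finset A) (L : EReal),
      (∀ (ι : Type) [Preorder ι] [IsDirectedOrder ι] [Nonempty ι] (F : ι → Finset G),
        IsFolnerNet F → Tendsto (fun i => rate G X (F i)) atTop (𝓝 L)) → Halg G X = L) := by
  refine ⟨fun H => ⟨?_, ?_, fun X hX => Halg_le H hX⟩, halg_eq_of_forall_net hG⟩
  · exact iSup_mono fun X => Halg_le H X.2
  · refine iSup_mono fun X => Halg_le H ?_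
    obtain ⟨B, hB⟩ := X.2
    exact ⟨0, by
      have : (0 : A) ∈ (X.1 : Set A) := by rw [hB]; exact B.zero_mem
      exact this⟩

end

end Pool.Agent.Results.MP_df8e9b_al.EntropySubgroups
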